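import Pool.Agent.Helper7_LRS.FRK

/-!
# Squad LRN, row EXT: a maximal independent subfamily
-/

set_option autoImplicit false

namespace Pool.Agent.LRS.H7

open Polynomial NumberField
open Pool.Agent.LRG (Indep Bdd)
open Pool.Agent.LRN (IsNew MaxNew)
open Pool.Agent.LRS

theorem ext_ : ExtStmt := by
  classical
  intro K _ _ r w
  let P : ℕ → Prop := fun s => ∃ f : Fin s → Fin r, Function.Injective f ∧ Indep (fun j => w (f j))
  have hP0 : P 0 := ⟨fun i => i.elim0, fun i => i.elim0, fun c _ => funext fun i => i.elim0⟩
  have hPr : ∀ s, P s → s ≤ r := by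
    rintro s ⟨f, hf, -⟩
    have := Fintype.card_le_of_injective f hf
    rwa [Fintype.card_fin, Fintype.card_fin] at this
  obtain ⟨s, hs, hmax⟩ : ∃ s, P s ∧ ¬ P (s + 1) := by
    by_contra hcon
    push Not at hcon
    have hall : ∀ s, P s := by
      intro s
      induction s with
      | zero => exact hP0
      | succ s ih => exact hcon s ih
    have := hPr _ (hall (r + 1))
    omega
  obtain ⟨f, hf, hind⟩ := hs
  refine ⟨s, f, hPr s ⟨f, hf, hind⟩, hind, ?_⟩
  intro i
  by_cases hi : ∃ j, f j = i
  · obtain ⟨j, rfl⟩ := hi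
    refine ⟨1, Pi.single j 1, one_pos, ?_⟩
    rw [pow_one, Finset.prod_eq_single j]
    · rw [Pi.single_eq_same, zpow_one]
    · intro k _ hk
      rw [Pi.single_eq_of_ne hk, zpow_zero]
    · intro h
      exact absurd (Finset.mem_univ j) h
  · have hinj : Function.Injective (Fin.snoc (α := fun _ => Fin r) f i : Fin (s + 1) → Fin r) := by
      intro a b
      refine Fin.lastCases ?_ (fun a => ?_) a
      · refine Fin.lastCases ?_ (fun b => ?_) b
        · intro _
          rfl
        · intro h
          rw [Fin.snoc_last, Fin.snoc_castSucc] at h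
          exact absurd ⟨b, h.symm⟩ hi
      · refine Fin.lastCases ?_ (fun b => ?_) b
        · intro h
          rw [Fin.snoc_last, Fin.snoc_castSucc] at h
          exact absurd ⟨a, h⟩ hi
        · intro h
          rw [Fin.snoc_castSucc, Fin.snoc_castSucc] at h
          rw [hf h]
    have hni : ¬ Indep (fun j => w ((Fin.snoc (α := fun _ => Fin r) f i : Fin (s + 1) → Fin r) j)) :=
      fun h => hmax ⟨_, hinj, h⟩
    unfold Indep at hni
    push Not at hni
    obtain ⟨c, hc, hc0⟩ := hni
    rw [Fin.prod_univ_castSucc] at hc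
    simp only [Fin.snoc_castSucc, Fin.snoc_last] at hc
    rw [mul_comm] at hc
    refine solve (fun j => w (f j)) (w i) (c (Fin.last s)) (fun j => c j.castSucc) ?_ hc
    intro h0
    rw [h0, zpow_zero, one_mul] at hc
    have h1 := hind (fun j => c j.castSucc) hc
    apply hc0
    funext a
    refine Fin.lastCases ?_ (fun a => ?_) a
    · exact h0
    · exact congrFun h1 a

end Pool.Agent.LRS.H7
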