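import Pool.Agent.LRS.Stmts

/-!
# Squad LRN, row FRK: independent units in the number of the rank have finite index
-/

set_option autoImplicit false

namespace Pool.Agent.LRS.H7

open Polynomial NumberField
open Pool.Agent.LRG (Indep Bdd)
open Pool.Agent.LRN (IsNew MaxNew)
open Pool.Agent.LRS

/-- solve a relation for one element -/
theorem solve {G : Type} [CommGroup G] {s : ℕ} (v : Fin s → G) (w : G) (a : ℤ) (c : Fin s → ℤ)
    (ha : a ≠ 0) (h : w ^ a * ∏ i, v i ^ c i = 1) :
    ∃ (m : ℕ) (c' : Fin s → ℤ), 0 < m ∧ w ^ m = ∏ i, v i ^ c' i := by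
  rcases lt_or_gt_of_ne ha with hneg | hpos
  · refine ⟨a.natAbs, c, Int.natAbs_pos.2 ha, ?_⟩
    have h1 : (a.natAbs : ℤ) = -a := by omega
    rw [← zpow_natCast, h1, zpow_neg, inv_eq_iff_mul_eq_one]
    exact h
  · refine ⟨a.natAbs, fun i => -c i, Int.natAbs_pos.2 ha, ?_⟩
    have h1 : (a.natAbs : ℤ) = a := by omega
    rw [← zpow_natCast, h1]
    simp only [zpow_neg, Finset.prod_inv_distrib]
    exact eq_inv_of_mul_eq_one_left h

theorem frk : FrkStmt := by
  intro K _ _ r u hr hu w
  let f : Option (Fin r) → Additive (𝓞 K)ˣ := fun o => Additive.ofMul (o.elim w fun i => u i)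
  have hdep : ¬ LinearIndependent ℤ f := by
    intro hli
    have h1 := hli.fintype_card_le_finrank
    rw [Units.finrank_eq, Fintype.card_option, Fintype.card_fin, hr] at h1
    omega
  rw [Fintype.not_linearIndependent_iff] at hdep
  obtain ⟨c, hc, o, ho⟩ := hdep
  have hrel : w ^ c none * ∏ i, u i ^ c (some i) = 1 := by
    have h1 : ∏ o, (Additive.toMul (f o)) ^ c o = 1 := by
      have h2 := congrArg Additive.toMul hc
      rw [toMul_sum] at h2
      simpa using h2
    rw [Fintype.prod_option] at h1
    exact h1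
  refine solve u w (c none) (fun i => c (some i)) ?_ hrel
  intro h0
  rw [h0, zpow_zero, one_mul] at hrel
  have h1 := hu (fun i => c (some i)) hrel
  apply ho
  cases o with
  | none => exact h0
  | some i => exact congrFun h1 i

end Pool.Agent.LRS.H7
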